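import Pool.Agent.R901.CA.Main

/-!
# Central elements which are not realised by principal `S¹`-actions on finite coverings

The answer to Q1 is no. **The reason.** In a group with elements `a, b, s, z` such that `z = [a, b]` is central
and `s a s⁻¹ = a²`, a subgroup `H` of finite index which contains `z²` contains `z`: in a finite
quotient the order `n` of `a` is odd, because `a` and `a²` are conjugate, and `zⁿ = [aⁿ, b] = 1`. If such
a group is the fundamental group of a closed aspherical manifold `M` and `z` has infinite order, then
`g = z²` is not realised by a principal `S¹`-action on a finite covering `N` of `M`: the group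
`π₁(N) / ⟨z²⟩` has the element `z` of order two, but it would be the fundamental group of the
finite-dimensional aspherical space `N / S¹`.

**The manifold.** The group `P = ⟨a, b, s | [a, b] = 1, s a s⁻¹ = a²⟩` has a finite classifying complex, so it is a
retract of the fundamental group of a closed oriented aspherical manifold `N₀` (Davis). The central
extension `⟨a, b, s, z | [a, b] = z central, s a s⁻¹ = a²⟩` of `P` by `ℤ` has the pull-back `E` to `π₁(N₀)`, and
`E` is the fundamental group of the principal circle bundle `M` over `N₀` with this Euler class. (In Lean we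
use an extension obtained from a group of matrices, which gives the same relations.)

Manifolds are not available in Mathlib; `Manifolds` lists the facts which are used.
-/

set_option autoImplicit false

namespace Pool.Agent.Results.MP_2f0aff_gt.SquaresOfCentralElements

open Pool.Agent.R901.CA

universe u

/-- (1) If `z = [a, b]` is central and `s a s⁻¹ = a²` in a group, then every subgroup of finite index which
contains `z²` contains `z`. (2) There are a closed oriented aspherical manifold `M` and a central
element `z` of infinite order of `π₁(M)` with this property, and for all finite coverings `N` of `M` with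
`z² ∈ π₁(N)` there is no principal `S¹`-action on `N` which realises `z²`. (3) The listed facts are
consistent. -/
theorem result :
    (∀ (G : Type) [Group G] (a b s z : G), a * b = z * (b * a) → (∀ g : G, z * g = g * z) →
      s * a * s⁻¹ = a ^ 2 → ∀ H : Subgroup G, H.FiniteIndex → z ^ 2 ∈ H → z ∈ H) ∧
    (∀ 𝒯 : Manifolds.{u}, ∃ (M : 𝒯.Mfd) (z : 𝒯.π M),
      (∀ x, z * x = x * z) ∧ (∀ n : ℕ, n ≠ 0 → z ^ n ≠ 1) ∧
      (∀ H : Subgroup (𝒯.π M), H.FiniteIndex → z ^ 2 ∈ H → z ∈ H) ∧
      ∀ H : Subgroup (𝒯.π M), H.FiniteIndex → z ^ 2 ∈ H → ¬ 𝒯.Realised M H (z ^ 2)) ∧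
    Nonempty Manifolds.{1} :=
  ⟨fun _ _ _ _ _ _ h1 h2 h3 H _ h => Rel.mem_of_sq_mem ⟨h1, h2, h3⟩ H h,
    fun 𝒯 => exists_manifold 𝒯, ⟨model⟩⟩

end Pool.Agent.Results.MP_2f0aff_gt.SquaresOfCentralElements
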